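import Pool.Agent.H586.AF.A

/-! Task AF-K: the integral of four heat traces is at most of order `L ^ 4`. -/

set_option autoImplicit false

open MeasureTheory Matrix Finset Filter Topology

namespace Pool.Agent.H286.AF

open Pool.Agent.H586.AF

/-- a heat trace up to the time `L ^ 2` -/
theorem small_time {C0 CH L t x h : ℝ} (hC0 : 1 ≤ C0) (hL : 2 ≤ L) (ht : 0 ≤ t)
    (htL : t ≤ L ^ 2) (hx : |x - L * h| ≤ C0) (h0 : 0 ≤ h) (h1 : h ≤ CH / Real.sqrt (1 + t)) :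
    |x| ≤ (2 * C0 + CH) * L / Real.sqrt (1 + t) := by
  have hs : 0 < Real.sqrt (1 + t) := Real.sqrt_pos.2 (by linarith)
  have hs2 : Real.sqrt (1 + t) ≤ 2 * L := by
    rw [Real.sqrt_le_left (by linarith)]
    nlinarith
  have h2 : |x| ≤ C0 + L * h := by
    have := abs_le.1 hx
    rw [abs_le]
    have h3 : 0 ≤ L * h := mul_nonneg (by linarith) h0
    constructor <;> linarith
  have h3 : C0 ≤ 2 * C0 * L / Real.sqrt (1 + t) := by
    rw [le_div_iff₀ hs]
    nlinarith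
  have h4 : L * h ≤ L * (CH / Real.sqrt (1 + t)) := mul_le_mul_of_nonneg_left h1 (by linarith)
  have h5 : (2 * C0 + CH) * L / Real.sqrt (1 + t) =
      2 * C0 * L / Real.sqrt (1 + t) + L * (CH / Real.sqrt (1 + t)) := by ring
  rw [h5]
  linarith

theorem tk (hH : S_H) : S_K := by
  intro C0 hC0
  obtain ⟨CH, hCH, -, hh1, -, -, -⟩ := hH
  refine ⟨(2 * C0 + CH) ^ 4 + 2 * C0 ^ 4, ?_⟩
  intro L hL c1 c2 c d T1 T2 T3
  have hL2 : (2 : ℝ) ≤ L := by exact_mod_cast hL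
  set A : ℝ := 2 * C0 + CH with hA
  have hApos : 0 < A := by rw [hA]; linarith
  -- the majorant and its primitive
  let G : ℝ → ℝ := fun t => -(A ^ 4 * (L : ℝ) ^ 4 * (1 + t)⁻¹) -
    C0 ^ 4 * (2 * (L : ℝ) ^ 2) * Real.exp (-(t / (2 * (L : ℝ) ^ 2)))
  let g : ℝ → ℝ := fun t => A ^ 4 * (L : ℝ) ^ 4 / (1 + t) ^ 2 +
    C0 ^ 4 * Real.exp (-(t / (2 * (L : ℝ) ^ 2)))
  have hLpos : (0 : ℝ) < 2 * (L : ℝ) ^ 2 := by positivity
  have hder : ∀ t ∈ Set.Ici (0 : ℝ), HasDerivAt G (g t) t := by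
    intro t ht
    have ht0 : (0 : ℝ) ≤ t := ht
    have e1 : HasDerivAt (fun t : ℝ => (1 + t)⁻¹) (-1 / (1 + t) ^ 2) t :=
      ((hasDerivAt_id t).const_add 1).inv (by simp only [id]; positivity)
    have e2 : HasDerivAt (fun t : ℝ => Real.exp (-(t / (2 * (L : ℝ) ^ 2))))
        (Real.exp (-(t / (2 * (L : ℝ) ^ 2))) * (-(1 / (2 * (L : ℝ) ^ 2)))) t :=
      (((hasDerivAt_id t).div_const (2 * (L : ℝ) ^ 2)).neg).exp
    have e3 := ((e1.const_mul (A ^ 4 * (L : ℝ) ^ 4)).neg).sub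
      (e2.const_mul (C0 ^ 4 * (2 * (L : ℝ) ^ 2)))
    have e4 : -(A ^ 4 * (L : ℝ) ^ 4 * (-1 / (1 + t) ^ 2)) - C0 ^ 4 * (2 * (L : ℝ) ^ 2) *
        (Real.exp (-(t / (2 * (L : ℝ) ^ 2))) * (-(1 / (2 * (L : ℝ) ^ 2)))) = g t := by
      simp only [g]
      field_simp
      ring
    rw [e4] at e3
    exact e3
  have hgpos : ∀ t ∈ Set.Ioi (0 : ℝ), 0 ≤ g t := by
    intro t ht
    have ht0 : (0 : ℝ) < t := ht
    have : 0 < C0 := by linarith
    positivity
  have htend : Tendsto G atTop (𝓝 0) := by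
    have e1 : Tendsto (fun t : ℝ => (1 + t)⁻¹) atTop (𝓝 0) :=
      tendsto_inv_atTop_zero.comp (tendsto_atTop_add_const_left _ _ tendsto_id)
    have e2 : Tendsto (fun t : ℝ => Real.exp (-(t / (2 * (L : ℝ) ^ 2)))) atTop (𝓝 0) :=
      Real.tendsto_exp_neg_atTop_nhds_zero.comp (tendsto_id.atTop_div_const hLpos)
    have e3 := ((e1.const_mul (A ^ 4 * (L : ℝ) ^ 4)).neg).sub
      (e2.const_mul (C0 ^ 4 * (2 * (L : ℝ) ^ 2)))
    simp only [mul_zero, neg_zero, sub_zero] at e3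
    exact e3
  have hint : IntegrableOn g (Set.Ioi 0) :=
    integrableOn_Ioi_deriv_of_nonneg' hder hgpos htend
  have hval : ∫ t in Set.Ioi (0 : ℝ), g t = 0 - G 0 :=
    integral_Ioi_of_hasDerivAt_of_nonneg' hder hgpos htend
  have hbound : ∀ t ∈ Set.Ioi (0 : ℝ), ‖c1 t * c2 t * c t * d t‖ ≤ g t := by
    intro t ht
    have ht0 : (0 : ℝ) < t := ht
    rw [Real.norm_eq_abs, abs_mul, abs_mul, abs_mul]
    have hC0p : 0 < C0 := by linarith
    rcases le_total t ((L : ℝ) ^ 2) with h | h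
    · obtain ⟨k1, k2, -⟩ := hh1 t ht0.le
      have b1 := small_time hC0 hL2 ht0.le h (T1.hc t ht0.le) k1 k2
      have b2 := small_time hC0 hL2 ht0.le h (T2.hc t ht0.le) k1 k2
      have b3 := small_time hC0 hL2 ht0.le h (T3.hc t ht0.le) k1 k2
      have b4 := small_time hC0 hL2 ht0.le h (T3.hd t ht0.le) k1 k2
      rw [← hA] at b1 b2 b3 b4
      have hs : 0 < Real.sqrt (1 + t) := Real.sqrt_pos.2 (by linarith)
      have hb : |c1 t| * |c2 t| * |c t| * |d t| ≤ A * L / Real.sqrt (1 + t) *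
          (A * L / Real.sqrt (1 + t)) * (A * L / Real.sqrt (1 + t)) *
          (A * L / Real.sqrt (1 + t)) := by
        have hq : 0 ≤ A * L / Real.sqrt (1 + t) := by positivity
        gcongr
      have hsq : Real.sqrt (1 + t) ^ 2 = 1 + t := Real.sq_sqrt (by linarith)
      have hb2 : A * L / Real.sqrt (1 + t) *
          (A * L / Real.sqrt (1 + t)) * (A * L / Real.sqrt (1 + t)) *
          (A * L / Real.sqrt (1 + t)) = A ^ 4 * (L : ℝ) ^ 4 / (1 + t) ^ 2 := by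
        have h4 : (1 + t) ^ 2 = Real.sqrt (1 + t) ^ 4 := by
          rw [show (4 : ℕ) = 2 * 2 from rfl, pow_mul, hsq]
        rw [h4]
        field_simp
      rw [hb2] at hb
      have : 0 ≤ C0 ^ 4 * Real.exp (-(t / (2 * (L : ℝ) ^ 2))) := by positivity
      simp only [g]
      linarith
    · have b1 := T1.lc t h
      have b2 := T2.lc t h
      have b3 := T3.lc t h
      have b4 := T3.ld t h
      have hb : |c1 t| * |c2 t| * |c t| * |d t| ≤
          C0 * C0 * C0 * (C0 * Real.exp (-(t / (2 * (L : ℝ) ^ 2)))) := by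
        gcongr
      have hb2 : C0 * C0 * C0 * (C0 * Real.exp (-(t / (2 * (L : ℝ) ^ 2)))) =
          C0 ^ 4 * Real.exp (-(t / (2 * (L : ℝ) ^ 2))) := by ring
      rw [hb2] at hb
      have : 0 ≤ A ^ 4 * (L : ℝ) ^ 4 / (1 + t) ^ 2 := by positivity
      simp only [g]
      linarith
  have hmain := norm_integral_le_of_norm_le (μ := volume.restrict (Set.Ioi (0 : ℝ))) hint
    ((ae_restrict_iff' measurableSet_Ioi).2 (Eventually.of_forall hbound))
  rw [Real.norm_eq_abs, hval] at hmain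
  refine hmain.trans ?_
  simp only [G]
  have h1 : (L : ℝ) ^ 2 ≤ (L : ℝ) ^ 4 := pow_le_pow_right₀ (by linarith) (by norm_num)
  have h2 : 0 ≤ C0 ^ 4 := by positivity
  have h3 : C0 ^ 4 * (L : ℝ) ^ 2 ≤ C0 ^ 4 * (L : ℝ) ^ 4 := mul_le_mul_of_nonneg_left h1 h2
  norm_num
  nlinarith

end Pool.Agent.H286.AF
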